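import Pool.Agent.Helper31.LW.Goals
import Pool.Agent.Helper64.LQ.G2

/-!
Packet LW-CHART (MP_6fb600_gt): the affine chart of the space of the linear maps.
-/

set_option autoImplicit false

open MeasureTheory Set
open scoped ENNReal Matrix
open Pool.Agent.Helper31.LQ

noncomputable section

namespace Pool.Agent.Helper4.LW

open Pool.Agent.Helper31.LW Pool.Agent.Helper64.LQ

/-! ### Transposition preserves the volume -/

/-- The transposition as a linear map. -/
def tr (d : ℕ) : (Fin d → Fin d → ℝ) →ₗ[ℝ] (Fin d → Fin d → ℝ) where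
  toFun g := fun i j => g j i
  map_add' _ _ := rfl
  map_smul' _ _ := rfl

theorem mp_tr (d : ℕ) :
    MeasurePreserving (fun g : Fin d → Fin d → ℝ => fun i j => g j i) := by
  have h1 : (tr d) ∘ₗ (tr d) = LinearMap.id := rfl
  have h2 : LinearMap.det (tr d) * LinearMap.det (tr d) = 1 := by
    rw [← LinearMap.det_comp, h1, LinearMap.det_id]
  have h3 : LinearMap.det (tr d) ≠ 0 := fun h => by
    rw [h] at h2
    simp at h2
  have h4 : |(LinearMap.det (tr d))⁻¹| = 1 := by
    rcases mul_self_eq_one_iff.1 h2 with h | h <;> rw [h] <;> norm_num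
  refine ⟨?_, ?_⟩
  · exact measurable_pi_lambda _ fun i => measurable_pi_lambda _ fun j =>
      (measurable_pi_apply i).comp (measurable_pi_apply j)
  · have := Measure.map_linearMap_addHaar_eq_smul_addHaar
      (volume : Measure (Fin d → Fin d → ℝ)) h3
    rw [h4, ENNReal.ofReal_one, one_smul] at this
    exact this

/-! ### The first `d` columns and the others -/

theorem mp_append (d m : ℕ) : MeasurePreserving
    (fun p : (Fin d → Fin d → ℝ) × (Fin m → Fin d → ℝ) =>
      (Fin.append p.1 p.2 : Fin (d + m) → Fin d → ℝ)) := by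
  have h1 := volume_measurePreserving_sumPiEquivProdPi_symm
    (fun _ : Fin d ⊕ Fin m => Fin d → ℝ)
  have h2 := volume_measurePreserving_piCongrLeft (fun _ : Fin (d + m) => Fin d → ℝ)
    (finSumFinEquiv (m := d) (n := m))
  have h3 := h2.comp h1
  have e : (MeasurableEquiv.piCongrLeft (fun _ : Fin (d + m) => Fin d → ℝ)
      (finSumFinEquiv (m := d) (n := m))) ∘
      (MeasurableEquiv.sumPiEquivProdPi (fun _ : Fin d ⊕ Fin m => Fin d → ℝ)).symm =
      fun p : (Fin d → Fin d → ℝ) × (Fin m → Fin d → ℝ) =>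
      (Fin.append p.1 p.2 : Fin (d + m) → Fin d → ℝ) := by
    funext p i
    refine Fin.addCases (fun a => ?_) (fun a => ?_) i
    · rw [Fin.append_left, Function.comp_apply, ← finSumFinEquiv_apply_left,
        MeasurableEquiv.piCongrLeft_apply_apply]
      rfl
    · rw [Fin.append_right, Function.comp_apply, ← finSumFinEquiv_apply_right,
        MeasurableEquiv.piCongrLeft_apply_apply]
      rfl
  rw [e] at h3
  exact h3

theorem lint_append (d m : ℕ) (h : (Fin (d + m) → Fin d → ℝ) → ℝ≥0∞) (hh : Measurable h) :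
    ∫⁻ Y, h Y = ∫⁻ g : Fin d → Fin d → ℝ, ∫⁻ B : Fin m → Fin d → ℝ, h (Fin.append g B) := by
  rw [← (mp_append d m).lintegral_comp hh, Measure.volume_eq_prod]
  exact lintegral_prod (fun p : (Fin d → Fin d → ℝ) × (Fin m → Fin d → ℝ) =>
    h (Fin.append p.1 p.2)) (hh.comp (mp_append d m).measurable).aemeasurable

theorem lint_tr (d : ℕ) (F : (Fin d → Fin d → ℝ) → ℝ≥0∞) (hF : Measurable F) :
    (∫⁻ g : Fin d → Fin d → ℝ, F (fun i j => g j i)) = ∫⁻ g, F g :=
  (mp_tr d).lintegral_comp hF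

theorem sqrt_conj {d : ℕ} (A G : Matrix (Fin d) (Fin d) ℝ) :
    Real.sqrt (A * G * Aᵀ).det = |A.det| * Real.sqrt G.det := by
  rw [Matrix.det_mul, Matrix.det_mul, Matrix.det_transpose,
    show A.det * G.det * A.det = A.det ^ 2 * G.det by ring,
    Real.sqrt_mul (sq_nonneg _), Real.sqrt_sq_eq_abs]

theorem meas_ch (d m : ℕ) :
    Measurable fun Z : Fin m → Fin d → ℝ => (ch Z : Fin (d + m) → Fin d → ℝ) :=
  (mp_append d m).measurable.comp (measurable_const.prodMk measurable_id)

theorem append_mul {d m : ℕ} (g : Fin d → Fin d → ℝ) (Z : Fin m → Fin d → ℝ) :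
    (Fin.append g (fun l => (Matrix.of g)ᵀ *ᵥ Z l) : Fin (d + m) → Fin d → ℝ) =
      fun l => (Matrix.of g)ᵀ *ᵥ ch Z l := by
  funext l
  refine Fin.addCases (fun a => ?_) (fun a => ?_) l
  · rw [Fin.append_left, ch, Fin.append_left, Matrix.mulVec_single_one]
    rfl
  · rw [Fin.append_right, ch, Fin.append_right]

theorem det_grm_ch {d m : ℕ} (Z : Fin m → Fin d → ℝ) : (grm 1 (ch Z)).det ≠ 0 := by
  have e : grm 1 (ch Z) = 1 + (Matrix.of fun a l => Z l a) * (Matrix.of fun a l => Z l a)ᴴ := by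
    ext a b
    have h1 : grm 1 (ch Z) a b = ∑ l, ch Z l a * ch Z l b := by
      unfold grm
      rw [Matrix.of_apply]
      refine Finset.sum_congr rfl fun l _ => ?_
      rw [Finset.sum_eq_single l]
      · rw [Matrix.one_apply_eq, mul_one]
      · intro k _ hk
        rw [Matrix.one_apply_ne (Ne.symm hk), mul_zero, zero_mul]
      · simp
    rw [h1, Fin.sum_univ_add, Matrix.add_apply, Matrix.mul_apply]
    refine congrArg₂ (· + ·) ?_ ?_
    · simp only [ch, Fin.append_left]
      rw [Finset.sum_eq_single a]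
      · rw [Pi.single_eq_same, one_mul, Matrix.one_apply]
        by_cases hab : a = b
        · subst hab
          simp
        · rw [if_neg hab, Pi.single_eq_of_ne (Ne.symm hab)]
      · intro c _ hc
        rw [Pi.single_eq_of_ne (Ne.symm hc), zero_mul]
      · simp
    · refine Finset.sum_congr rfl fun l _ => ?_
      simp [ch]
  rw [e]
  exact (Matrix.PosDef.one.add_posSemidef (Matrix.posSemidef_self_mul_conjTranspose _)).det_pos.ne'

theorem meas_Kg {n d : ℕ} (Q : Matrix (Fin n) (Fin n) ℝ) (Y : Fin n → Fin d → ℝ) :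
    Measurable fun g : Fin d → Fin d → ℝ => ENNReal.ofReal (Ka n Q g Y) :=
  ((meas_Ka n Q).comp (measurable_id.prodMk measurable_const)).ennreal_ofReal

/-! ### The main statement -/

theorem gCHART (hL : Pool.Agent.Helper31.LQ.LMUL) (hG : Pool.Agent.Helper31.LQ.GRM)
    (hA : Pool.Agent.Helper31.LQ.G2A) (hC : Pool.Agent.Helper31.LQ.CST) :
    Pool.Agent.Helper31.LW.CHART := by
  intro d m h1
  refine ⟨Ca (d + m) d, (hC d (d + m - d)).1, (hC d (d + m - d)).2, fun f hf hi => ?_⟩
  have hP : (1 : Matrix (Fin (d + m)) (Fin (d + m)) ℝ).PosDef := Matrix.PosDef.one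
  have m1 : Measurable (eta (d := d) (1 : Matrix (Fin (d + m)) (Fin (d + m)) ℝ)) :=
    (hG (d + m) d 1 hP (fun _ _ => 0)).2.2.2.2.2
  have mK : Measurable fun p : (Fin d → Fin d → ℝ) × (Fin m → Fin d → ℝ) =>
      ENNReal.ofReal (Ka (d + m) 1 p.1 (ch p.2)) :=
    ((meas_Ka (d + m) 1).comp (measurable_fst.prodMk ((meas_ch d m).comp measurable_snd))).ennreal_ofReal
  have mF : Measurable fun p : (Fin d → Fin d → ℝ) × (Fin m → Fin d → ℝ) =>
      f (ch p.2) * ENNReal.ofReal (Ka (d + m) 1 p.1 (ch p.2)) :=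
    (hf.comp ((meas_ch d m).comp measurable_snd)).mul mK
  have mH : Measurable fun g : Fin d → Fin d → ℝ => ∫⁻ Z : Fin m → Fin d → ℝ,
      f (ch Z) * ENNReal.ofReal (Ka (d + m) 1 g (ch Z)) := mF.lintegral_prod_right'
  calc IQ 1 f
      = ∫⁻ g : Fin d → Fin d → ℝ, ∫⁻ B : Fin m → Fin d → ℝ,
          f (Fin.append g B) * eta 1 (Fin.append g B) := by
        unfold IQ
        exact lint_append d m (fun Y => f Y * eta 1 Y) (hf.mul m1)
    _ = ∫⁻ g : Fin d → Fin d → ℝ, ∫⁻ Z : Fin m → Fin d → ℝ,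
          f (ch Z) * ENNReal.ofReal (Ka (d + m) 1 (fun i j => g j i) (ch Z)) := by
        refine lintegral_congr_ae ((ae_det_ne_zero d).mono fun g hg => ?_)
        have hM : ((Matrix.of g)ᵀ).det ≠ 0 := by rwa [Matrix.det_transpose]
        show (∫⁻ B : Fin m → Fin d → ℝ, f (Fin.append g B) * eta 1 (Fin.append g B)) =
          ∫⁻ Z : Fin m → Fin d → ℝ,
            f (ch Z) * ENNReal.ofReal (Ka (d + m) 1 (fun i j => g j i) (ch Z))
        rw [← hL m d (Matrix.of g)ᵀ hM fun B => f (Fin.append g B) * eta 1 (Fin.append g B),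
          ← lintegral_mul_const' _ _ ENNReal.ofReal_ne_top]
        refine lintegral_congr fun Z => ?_
        rw [append_mul]
        have e1 := hi (Matrix.of g)ᵀ hM (ch Z)
        have g1 := (hG (d + m) d 1 hP (ch Z)).2.2.1 (Matrix.of g)ᵀ
        have eM : (Matrix.of fun i j => g j i) = (Matrix.of g)ᵀ := rfl
        set A : Matrix (Fin d) (Fin d) ℝ := (Matrix.of g)ᵀ with hAdef
        have hk : (eta 1 fun l => A *ᵥ ch Z l) * ENNReal.ofReal (|A.det| ^ m) =
            ENNReal.ofReal (|A.det| ^ (d + m)) *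
              ENNReal.ofReal (Ka (d + m) 1 (fun i j => g j i) (ch Z)) := by
          unfold eta Ka
          rw [eM, g1, ← ENNReal.ofReal_mul (by positivity), ← ENNReal.ofReal_mul (by positivity)]
          congr 1
          rw [sqrt_conj, Nat.add_sub_cancel_left]
          ring
        calc (f fun l => A *ᵥ ch Z l) * (eta 1 fun l => A *ᵥ ch Z l) *
              ENNReal.ofReal (|A.det| ^ m)
            = (f fun l => A *ᵥ ch Z l) * ((eta 1 fun l => A *ᵥ ch Z l) *
              ENNReal.ofReal (|A.det| ^ m)) := by ring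
          _ = ((f fun l => A *ᵥ ch Z l) * ENNReal.ofReal (|A.det| ^ (d + m))) *
              ENNReal.ofReal (Ka (d + m) 1 (fun i j => g j i) (ch Z)) := by rw [hk]; ring
          _ = _ := by rw [e1]
    _ = ∫⁻ g : Fin d → Fin d → ℝ, ∫⁻ Z : Fin m → Fin d → ℝ,
          f (ch Z) * ENNReal.ofReal (Ka (d + m) 1 g (ch Z)) :=
        lint_tr d _ mH
    _ = ∫⁻ Z : Fin m → Fin d → ℝ, ∫⁻ g : Fin d → Fin d → ℝ,
          f (ch Z) * ENNReal.ofReal (Ka (d + m) 1 g (ch Z)) :=
        lintegral_lintegral_swap mF.aemeasurable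
    _ = ∫⁻ Z : Fin m → Fin d → ℝ, Ca (d + m) d * f (ch Z) := by
        refine lintegral_congr fun Z => ?_
        rw [lintegral_const_mul _ (meas_Kg 1 (ch Z))]
        have e : (∫⁻ g : Fin d → Fin d → ℝ, ENNReal.ofReal (Ka (d + m) 1 g (ch Z))) =
            Ca (d + m) d := hA (d + m) d h1 (Nat.le_add_right d m) 1 hP (ch Z) (det_grm_ch Z)
        rw [e, mul_comm]
    _ = Ca (d + m) d * ∫⁻ Z : Fin m → Fin d → ℝ, f (ch Z) :=
        lintegral_const_mul _ (hf.comp (meas_ch d m))

end Pool.Agent.Helper4.LW
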